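import Pool.Agent.W147.LF.Stm

set_option autoImplicit false

open Polynomial Pool.Agent.W147.LF

namespace Pool.Agent.W174.LF

section

variable {K L : Type} [Field K] [Fintype K] [Field L] [Algebra K L]

theorem frob_fix (u : K[X]) (hm : u.Monic) (hirr : Irreducible u) (x : L) (hx : aeval x u = 0)
    (d : ℕ) : x ^ (Fintype.card K ^ d) = x ↔ u.natDegree ∣ d := by
  have hmin : u = minpoly K x := minpoly.eq_of_irreducible_of_monic hirr hx hm
  rw [hirr.natDegree_dvd_iff_dvd_X_pow_card_pow_sub_X, Nat.card_eq_fintype_card]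
  constructor
  · intro h
    conv_lhs => rw [hmin]
    apply minpoly.dvd
    simp [h]
  · intro h
    obtain ⟨w, hw⟩ := h
    have := congrArg (aeval x) hw
    rw [map_mul, hx, zero_mul, map_sub, map_pow, aeval_X] at this
    exact sub_eq_zero.1 this

theorem frob_root (u : K[X]) (x : L) (hx : aeval x u = 0) (i : ℕ) :
    aeval (x ^ (Fintype.card K ^ i)) u = 0 := by
  induction i with
  | zero => simpa using hx
  | succ i ih =>
    have h1 : x ^ (Fintype.card K ^ (i + 1)) =
        FiniteField.frobeniusAlgHom K L (x ^ (Fintype.card K ^ i)) := by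
      rw [FiniteField.coe_frobeniusAlgHom, pow_succ, pow_mul]
    rw [h1, aeval_algHom_apply, ih, map_zero]

theorem frob_inj (i : ℕ) : Function.Injective (fun x : L => x ^ (Fintype.card K ^ i)) := by
  induction i with
  | zero => intro x y h; simpa using h
  | succ i ih =>
    intro x y h
    simp only [pow_succ, pow_mul] at h
    have h2 : FiniteField.frobeniusAlgHom K L (x ^ (Fintype.card K ^ i)) =
        FiniteField.frobeniusAlgHom K L (y ^ (Fintype.card K ^ i)) := by
      rw [FiniteField.coe_frobeniusAlgHom]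
      exact h
    exact ih ((FiniteField.frobeniusAlgHom K L).toRingHom.injective h2)

/-- the conjugates -/
def th (K : Type) {L : Type} [Fintype K] [Field L] (x : L) (n : ℕ) (i : Fin n) : L :=
  x ^ (Fintype.card K ^ (i : ℕ))

theorem th_inj (u : K[X]) (hm : u.Monic) (hirr : Irreducible u) (x : L) (hx : aeval x u = 0) :
    Function.Injective (th K x u.natDegree) := by
  have key : ∀ i j : ℕ, i < j → j < u.natDegree →
      x ^ (Fintype.card K ^ i) = x ^ (Fintype.card K ^ j) → False := by
    intro i j hij hj h
    have h1 : x ^ (Fintype.card K ^ j) = (x ^ (Fintype.card K ^ (j - i))) ^ (Fintype.card K ^ i) := by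
      rw [← pow_mul, ← pow_add, Nat.sub_add_cancel hij.le]
    rw [h1] at h
    have h2 := frob_inj (K := K) i h
    have h3 := (frob_fix u hm hirr x hx (j - i)).1 h2.symm
    have := Nat.le_of_dvd (by omega) h3
    omega
  intro i j h
  rcases lt_trichotomy (i : ℕ) j with hlt | heq | hgt
  · exact (key i j hlt j.2 h).elim
  · exact Fin.ext heq
  · exact (key j i hgt i.2 h.symm).elim

theorem roots_eq (u : K[X]) (hm : u.Monic) (hirr : Irreducible u) (x : L) (hx : aeval x u = 0) :
    u.aroots L = Finset.univ.val.map (th K x u.natDegree) := by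
  symm
  have hnd : (Finset.univ.val.map (th K x u.natDegree)).Nodup :=
    Finset.univ.nodup.map (th_inj u hm hirr x hx)
  apply Multiset.eq_of_le_of_card_le
  · rw [Multiset.le_iff_subset hnd]
    intro y hy
    rw [Multiset.mem_map] at hy
    obtain ⟨i, -, rfl⟩ := hy
    rw [mem_aroots]
    exact ⟨hm.ne_zero, frob_root u x hx i⟩
  · rw [Multiset.card_map, Finset.card_val, Finset.card_univ, Fintype.card_fin]
    refine (card_roots' _).trans ?_
    rw [natDegree_map]

theorem vand (u : K[X]) (hm : u.Monic) (hirr : Irreducible u) (x : L) (hx : aeval x u = 0) :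
    (Matrix.vandermonde (th K x u.natDegree)).det ^ Fintype.card K =
      (-1) ^ (u.natDegree - 1) * (Matrix.vandermonde (th K x u.natDegree)).det := by
  have h1 : (Matrix.vandermonde (th K x u.natDegree)).det ^ Fintype.card K =
      FiniteField.frobeniusAlgHom K L (Matrix.vandermonde (th K x u.natDegree)).det := by
    rw [FiniteField.coe_frobeniusAlgHom]
  rw [h1, AlgHom.map_det]
  have h2 : (FiniteField.frobeniusAlgHom K L).mapMatrix
      (Matrix.vandermonde (th K x u.natDegree)) =
      (Matrix.vandermonde (th K x u.natDegree)).submatrix (finRotate u.natDegree) id := by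
    ext i j
    rw [AlgHom.mapMatrix_apply, Matrix.map_apply, Matrix.submatrix_apply, Matrix.vandermonde_apply,
      Matrix.vandermonde_apply, map_pow, FiniteField.coe_frobeniusAlgHom]
    simp only [id]
    congr 1
    have hn : 0 < u.natDegree := hirr.natDegree_pos
    obtain ⟨m, hm'⟩ : ∃ m, u.natDegree = m + 1 := ⟨u.natDegree - 1, by omega⟩
    have h3 : (th K x u.natDegree i) ^ Fintype.card K =
        x ^ (Fintype.card K ^ ((i : ℕ) + 1)) := by
      rw [th, ← pow_mul, ← pow_succ]
    rw [h3, th]
    have h4 : ((finRotate u.natDegree i : Fin u.natDegree) : ℕ) =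
        if (i : ℕ) + 1 = u.natDegree then 0 else (i : ℕ) + 1 := by
      clear h3 hx
      revert i
      rw [hm']
      intro i
      rw [coe_finRotate]
      have : (i = Fin.last m) ↔ ((i : ℕ) + 1 = m + 1) := by
        rw [Fin.ext_iff, Fin.val_last]; omega
      simp only [this]
    rw [h4]
    split_ifs with h5
    · rw [h5, pow_zero, pow_one]
      exact (frob_fix u hm hirr x hx u.natDegree).2 dvd_rfl
    · rfl
  rw [h2, Matrix.det_permute, sign_finRotate]
  simp

theorem sum_Ioi (n : ℕ) : ∑ i : Fin n, (Finset.Ioi i).card = n * (n - 1) / 2 := by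
  simp only [Fin.card_Ioi]
  rw [Fin.sum_univ_eq_sum_range (fun i => n - 1 - i) n, Finset.sum_range_reflect (fun i => i) n,
    Finset.sum_range_id]

end

theorem t_PelIrr : S_PelIrr := by
  intro K _ _ hodd u hm hirr
  classical
  have hn : 0 < u.natDegree := hirr.natDegree_pos
  obtain ⟨x, hx⟩ := IsAlgClosed.exists_aeval_eq_zero (AlgebraicClosure K) u
    (degree_pos_of_irreducible hirr).ne'
  set n := u.natDegree with hnn
  set θ : Fin n → AlgebraicClosure K := th K x n with hθ
  have hinj : Function.Injective θ := th_inj u hm hirr x hx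
  have hroots : u.aroots (AlgebraicClosure K) = Finset.univ.val.map θ := roots_eq u hm hirr x hx
  set D := (Matrix.vandermonde θ).det with hD
  have hDq : D ^ Fintype.card K = (-1) ^ (n - 1) * D := vand u hm hirr x hx
  have hD0 : D ≠ 0 := Matrix.det_vandermonde_ne_zero_iff.2 hinj
  have hder : ∀ i, aeval (θ i) (derivative u) = ∏ j ∈ ({i}ᶜ : Finset (Fin n)), (θ i - θ j) := by
    intro i
    have hmem : θ i ∈ (u.map (algebraMap K (AlgebraicClosure K))).roots := by
      have h0 : (u.map (algebraMap K (AlgebraicClosure K))).roots = Finset.univ.val.map θ := hroots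
      rw [h0, Multiset.mem_map]
      exact ⟨i, Finset.mem_univ_val i, rfl⟩
    have h1 := (IsAlgClosed.splits (u.map (algebraMap K (AlgebraicClosure K)))).eval_root_derivative
      (hm.map _) hmem
    rw [derivative_map, eval_map_algebraMap] at h1
    rw [h1]
    have h0 : (u.map (algebraMap K (AlgebraicClosure K))).roots = Finset.univ.val.map θ := hroots
    rw [h0, ← Multiset.map_erase θ hinj, Multiset.map_map]
    have h2 : (Finset.univ : Finset (Fin n)).val.erase i = (Finset.univ.erase i).val := rfl
    rw [h2]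
    have h3 : (Finset.univ.erase i : Finset (Fin n)) = {i}ᶜ := by
      ext j; simp
    rw [h3]
    rfl
  have hR : Pool.Agent.W147.LF.R u (derivative u) = (-1) ^ (n * (n - 1) / 2) * D ^ 2 := by
    unfold Pool.Agent.W147.LF.R
    rw [hroots, Multiset.map_map]
    have h1 : ((Finset.univ : Finset (Fin n)).val.map
        ((fun r => aeval r (derivative u)) ∘ θ)).prod =
        ∏ i, ∏ j ∈ ({i}ᶜ : Finset (Fin n)), (θ i - θ j) := by
      rw [← Finset.prod_eq_multiset_prod]
      exact Finset.prod_congr rfl (fun i _ => hder i)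
    rw [h1, ← Finset.prod_prod_Ioi_mul_eq_prod_prod_off_diag (fun j i => θ i - θ j)]
    rw [hD, Matrix.det_vandermonde, ← Finset.prod_pow, ← sum_Ioi, ← Finset.prod_pow_eq_pow_sum,
      ← Finset.prod_mul_distrib]
    refine Finset.prod_congr rfl fun i _ => ?_
    rw [← Finset.prod_const, ← Finset.prod_pow, ← Finset.prod_mul_distrib]
    refine Finset.prod_congr rfl fun j _ => ?_
    ring
  have hq2 : 2 * hq K = Fintype.card K - 1 := by
    unfold hq
    obtain ⟨k, hk⟩ := hodd
    omega
  have hcard : 0 < Fintype.card K := Fintype.card_pos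
  have hD1 : D ^ (Fintype.card K - 1) = (-1) ^ (n + 1) := by
    have h1 : D ^ (Fintype.card K - 1) * D = (-1) ^ (n - 1) * D := by
      rw [← pow_succ, Nat.sub_add_cancel hcard, hDq]
    have h2 := mul_right_cancel₀ hD0 h1
    rw [h2]
    obtain ⟨m, hm'⟩ : ∃ m, n = m + 1 := ⟨n - 1, by omega⟩
    rw [hm', Nat.add_sub_cancel, pow_add, pow_add]
    simp
  rw [hR, mul_pow, ← pow_mul D, hq2, hD1]

end Pool.Agent.W174.LF
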